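import Mathlib

namespace Pool.Agent.Results.MP_3e19fa_lc.Cycle

/-- number of distinct types other than that of agent `i` among agents on neighbours of its node -/
noncomputable def util {V : Type} {n k : ℕ} (G : SimpleGraph V) (ty : Fin n → Fin k) (σ : Fin n → V)
    (i : Fin n) : ℕ :=
  Set.ncard {t : Fin k | t ≠ ty i ∧ ∃ j, ty j = t ∧ G.Adj (σ i) (σ j)}

/-- `τ` arises from `σ` by an improving jump of one agent to an empty node -/
def Jump {V : Type} {n k : ℕ} (G : SimpleGraph V) (ty : Fin n → Fin k) (σ τ : Fin n → V) : Prop :=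
  ∃ (i : Fin n) (w : V), (∀ j, σ j ≠ w) ∧ τ = Function.update σ i w ∧ util G ty σ i < util G ty τ i

def edges : List (Fin 8 × Fin 8) :=
  [(1, 2), (0, 3), (2, 4), (3, 4), (1, 5), (3, 5), (4, 5), (0, 6), (2, 6), (4, 6), (0, 7), (1, 7),
    (5, 7), (6, 7)]

def G : SimpleGraph (Fin 8) where
  Adj a b := (a, b) ∈ edges ∨ (b, a) ∈ edges
  symm := ⟨fun _ _ h => h.symm⟩
  loopless := ⟨by decide⟩

instance : DecidableRel G.Adj := fun a b => by unfold G; infer_instance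

def ty : Fin 6 → Fin 3 := ![0, 0, 1, 1, 2, 2]

def sq : List (Fin 6 → Fin 8) :=
  [![1, 5, 0, 7, 3, 6], ![1, 5, 2, 7, 3, 6], ![1, 5, 2, 7, 3, 4], ![0, 5, 2, 7, 3, 4],
   ![0, 5, 2, 6, 3, 4], ![0, 5, 2, 6, 1, 4], ![0, 7, 2, 6, 1, 4], ![0, 7, 3, 6, 1, 4],
   ![0, 7, 3, 6, 1, 5], ![2, 7, 3, 6, 1, 5], ![2, 7, 3, 4, 1, 5], ![2, 7, 3, 4, 0, 5],
   ![2, 6, 3, 4, 0, 5], ![2, 6, 1, 4, 0, 5], ![2, 6, 1, 4, 0, 7], ![3, 6, 1, 4, 0, 7],
   ![3, 6, 1, 5, 0, 7], ![3, 6, 1, 5, 2, 7], ![3, 4, 1, 5, 2, 7], ![3, 4, 0, 5, 2, 7],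
   ![3, 4, 0, 5, 2, 6], ![1, 4, 0, 5, 2, 6], ![1, 4, 0, 7, 2, 6], ![1, 4, 0, 7, 3, 6],
   ![1, 5, 0, 7, 3, 6]]

def ut (σ : Fin 6 → Fin 8) (i : Fin 6) : ℕ :=
  (Finset.univ.filter fun t : Fin 3 => t ≠ ty i ∧ ∃ j, ty j = t ∧ G.Adj (σ i) (σ j)).card

lemma util_eq (σ : Fin 6 → Fin 8) (i : Fin 6) : util G ty σ i = ut σ i := by
  rw [util, ut, ← Set.ncard_coe_finset]
  congr 1
  ext t
  simp

theorem result : ∃ (V : Type) (_ : Fintype V) (G : SimpleGraph V) (n k : ℕ) (ty : Fin n → Fin k),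
    2 ≤ k ∧ Function.Surjective ty ∧ Fintype.card V = n + 2 ∧
    ∃ (m : ℕ) (σ : ℕ → Fin n → V), 1 ≤ m ∧ (∀ j, Function.Injective (σ j)) ∧ σ m = σ 0 ∧
      ∀ j, j < m → Jump G ty (σ j) (σ (j + 1)) := by
  refine ⟨Fin 8, inferInstance, G, 6, 3, ty, by norm_num, by decide, by simp, 24,
    fun j => sq.getD j ![1, 5, 0, 7, 3, 6], by norm_num, ?_, rfl, ?_⟩
  · intro j
    have h0 : ∀ j, j < 25 → ∀ a b, sq.getD j ![1, 5, 0, 7, 3, 6] a = sq.getD j ![1, 5, 0, 7, 3, 6] b →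
        a = b := by decide +kernel
    by_cases h : j < 25
    · exact fun a b => h0 j h a b
    · change Function.Injective (sq.getD j _)
      rw [List.getD_eq_default _ _ (by change 25 ≤ j; omega)]
      exact fun a b => h0 0 (by norm_num) a b
  · simp only [Jump, util_eq]
    decide +kernel

end Pool.Agent.Results.MP_3e19fa_lc.Cycle
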